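import Pool.Agent.Q15.BergMetric

/-! The Bergman property of the polymorphism clones of the rational Urysohn space, the rational
Urysohn sphere and the order of the rationals. -/

namespace Pool.Agent.Results.MP_c74e51_al.BergmanThreeCases

open Q15Berg

/-- The polymorphism clone of the rational Urysohn space does not have the Bergman property;
those of the rational Urysohn sphere and of `(ℚ, ≤)` have it. -/
theorem result :
    (∀ (X : Type) [MetricSpace X], IsFraisseLimit ratDist X → ¬ Bergman (metricPol X)) ∧
    (∀ (X : Type) [MetricSpace X], IsFraisseLimit ratDistOne X → Bergman (metricPol X)) ∧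
    Bergman (orderPol ℚ) :=
  ⟨fun _ _ h => not_bergman_space h, fun _ _ h => bergman_sphere h, bergman_rat⟩

end Pool.Agent.Results.MP_c74e51_al.BergmanThreeCases
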